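import Mathlib
import Pool.Agent.H99.GeoSysDefs
import Pool.Agent.H99.GeoSys

set_option autoImplicit false

namespace Pool.Agent.Results.MP_3301e6_mp.Counter

open MvPolynomial Finset Pool.Agent.H99.GeoSys

/-- the connection of the example -/
noncomputable def al (i j k : Fin 3) : Fn 3 :=
  if i = 2 ∧ j = 0 ∧ k = 1 then 1 + X 0 else if i = 2 ∧ j = 1 ∧ k = 0 then X 0 else 0

/-- symbol monomials -/
noncomputable def mo (i j k : ℕ) : Sy := X 0 ^ i * X 1 ^ j * X 2 ^ k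

lemma mo_eq (i j k : ℕ) :
    mo i j k = monomial (Finsupp.single 0 i + Finsupp.single 1 j + Finsupp.single 2 k) 1 := by
  simp [mo, X_pow_eq_monomial, monomial_mul]

lemma phi_mo (f g h : Jt 3) (i j k : ℕ) :
    phi f g h (mo i j k) = Dx^[i] f * Dx^[j] g * Dx^[k] h := by
  rw [mo_eq, phi_mon]
  simp

lemma deg_mo (i j k : ℕ) (hi : i ≤ 2) (hj : j ≤ 2) (hk : k ≤ 2) (l : Fin 3) :
    degreeOf l (mo i j k) ≤ 2 := by
  rw [mo_eq, degreeOf_monomial_eq _ _ one_ne_zero]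
  fin_cases l <;> simpa

/-- nonlinear part with symbol multiplied by Q -/
noncomputable def nl (Q : Sy) : Jt 3 :=
  (3 : ℝ) • phi (X (0, 0)) 1 (X (1, 0)) (mo 1 0 2 * Q) +
  (3 : ℝ) • phi (X (0, 0)) (X (0, 0)) (X (1, 0)) (mo 0 1 2 * Q) +
  (3 : ℝ) • phi (X (0, 0)) (X (0, 0)) (X (1, 0)) (mo 0 2 1 * Q) +
  (2 : ℝ) • phi (X (0, 0)) (X (0, 0)) (X (1, 0)) (mo 1 1 1 * Q)

/-- flows -/
noncomputable def fl (n : ℕ) (Q : Sy) (i : Fin 3) : Jt 3 := X (i, n) + if i = 2 then nl Q else 0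

lemma rhs_eq : rhs al (fun _ _ _ _ => 0) = fl 3 1 := by
  funext i
  have e3 : ∀ p : Jt 3, (3 : ℝ) • p = 3 * p := fun p => by
    rw [smul_eq_C_mul]; rfl
  have e2 : ∀ p : Jt 3, (2 : ℝ) • p = 2 * p := fun p => by
    rw [smul_eq_C_mul]; rfl
  fin_cases i
  · simp [rhs, al, fl, up]
  · simp [rhs, al, fl, up]
  · simp only [rhs, al, fl, up, nl, mul_one, phi_mo, Dx_iter_X, e3, e2, Fin.sum_univ_three]
    simp
    ring

lemma one_iter (k : ℕ) (hk : 0 < k) : Dx^[k] (1 : Jt 3) = 0 := by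
  obtain ⟨k, rfl⟩ := Nat.exists_eq_succ_of_ne_zero hk.ne'
  rw [Function.iterate_succ_apply, Derivation.map_one_eq_zero]
  exact Function.iterate_fixed (map_zero Dx) k

lemma Dt_nl (n : ℕ) (hn : 0 < n) (Q P : Sy) :
    Dt (fl n Q) (nl P) = nl ((X 0 ^ n + X 1 ^ n + X 2 ^ n) * P) := by
  have ha : ∀ (i : Fin 3), i ≠ 2 → ∀ k, Dt (fl n Q) (Dx^[k] (X (i, 0))) = Dx^[n + k] (X (i, 0)) := by
    intro i hi k
    rw [Dt_Dx_iter, Dt_X]
    simp [fl, hi, Dx_iter_X]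
  have h1 : ∀ k, Dt (fl n Q) (Dx^[k] 1) = Dx^[n + k] 1 := by
    intro k
    rw [Dt_Dx_iter, Derivation.map_one_eq_zero, one_iter _ (by omega)]
    exact Function.iterate_fixed (map_zero Dx) k
  simp only [nl, map_add, Derivation.map_smul]
  rw [der_phi _ n _ _ _ (ha 0 (by decide)) h1 (ha 1 (by decide))]
  simp only [der_phi _ n _ _ _ (ha 0 (by decide)) (ha 0 (by decide)) (ha 1 (by decide)),
    mul_left_comm]

lemma Dx_nl (P : Sy) : Dx (nl P) = nl ((X 0 + X 1 + X 2) * P) := by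
  simp only [nl, map_add, Derivation.map_smul, Dx_phi, mul_left_comm]

lemma Dx_iter_nl (n : ℕ) (P : Sy) : Dx^[n] (nl P) = nl ((X 0 + X 1 + X 2) ^ n * P) := by
  induction n with
  | zero => simp
  | succ i ih => rw [Function.iterate_succ_apply', ih, Dx_nl, pow_succ', mul_assoc]

lemma nl_add (P Q : Sy) : nl (P + Q) = nl P + nl Q := by
  simp only [nl, mul_add, map_add, smul_add]
  abel

lemma Dt_fl (n m : ℕ) (hn : 0 < n) (Q P : Sy) (i : Fin 3) :
    Dt (fl n Q) (fl m P i) = X (i, n + m) + if i = 2 then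
      nl ((X 0 + X 1 + X 2) ^ m * Q + (X 0 ^ n + X 1 ^ n + X 2 ^ n) * P) else 0 := by
  conv_lhs => rw [fl, map_add, Dt_X, fl]
  split_ifs with h
  · simp only [Dx_iter_add, Dx_iter_X, Dx_iter_nl, Dt_nl n hn, nl_add, add_assoc]
  · simp [Dx_iter_X]

lemma nl_supp (m : ℕ) (Q : Sy) (hQ : Q.IsHomogeneous (2 * m)) :
    nl Q ∈ supported ℝ {v : Fin 3 × ℕ | v.2 < 2 * m + 3} := by
  set S := supported ℝ {v : Fin 3 × ℕ | v.2 < 2 * m + 3}
  have ha : ∀ (i : Fin 3), ∀ k < 2 * m + 3, Dx^[k] (X (i, 0) : Jt 3) ∈ S := by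
    intro i k hk
    rw [Dx_iter_X, X_mem_supported]
    simpa using hk
  have h1 : ∀ k < 2 * m + 3, Dx^[k] (1 : Jt 3) ∈ S := by
    intro k _
    rcases Nat.eq_zero_or_pos k with rfl | hk
    · exact S.one_mem
    · rw [one_iter k hk]; exact S.zero_mem
  have hd : ∀ i j k : ℕ, i ≤ 2 → j ≤ 2 → k ≤ 2 → ∀ l, degreeOf l (mo i j k * Q) < 2 * m + 3 := by
    intro i j k hi hj hk l
    have h2 := degreeOf_mul_le l (mo i j k) Q
    have h3 := deg_mo i j k hi hj hk l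
    have h4 := (degreeOf_le_totalDegree Q l).trans hQ.totalDegree_le
    omega
  refine S.add_mem (S.add_mem (S.add_mem ?_ ?_) ?_) ?_ <;> apply S.smul_mem
  · exact phi_supp _ _ _ _ S (ha 0) h1 (ha 1) _ (hd _ _ _ (by omega) (by omega) (by omega))
  all_goals exact phi_supp _ _ _ _ S (ha 0) (ha 0) (ha 1) _ (hd _ _ _ (by omega) (by omega) (by omega))

/-- A system of geometric type with N = 3 having higher symmetries of every odd order, whose
connection has nowhere vanishing torsion and nowhere vanishing curvature (for both orders of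
the lower indices of the connection). -/
theorem result :
    ∃ (α : Fin 3 → Fin 3 → Fin 3 → Fn 3) (β : Fin 3 → Fin 3 → Fin 3 → Fin 3 → Fn 3),
      TotSymm β ∧ (∀ m : ℕ, HasSymm (rhs α β) (2 * m + 3)) ∧
      (∃ i j k, tors α i j k = 1) ∧ (∃ i j k l, curv α i j k l = 1) ∧
      (∃ i j k l, curv (fun a b c => α a c b) i j k l = 1) := by
  refine ⟨al, fun _ _ _ _ => 0, fun _ _ _ _ => ⟨rfl, rfl⟩, fun m => ?_, ⟨2, 0, 1, ?_⟩,
    ⟨2, 0, 0, 1, ?_⟩, ⟨2, 0, 0, 1, ?_⟩⟩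
  · obtain ⟨Q, hQ, hr⟩ := ps_div m
    refine ⟨fun i => if i = 2 then nl Q else 0, fun i v hv => ?_, fun i => ?_⟩
    · by_cases h : i = 2
      · simp only [h, if_true] at hv
        exact mem_supported.1 (nl_supp m Q hQ) hv
      · simp [h] at hv
    · rw [rhs_eq]
      change Dt (fl 3 1) (fl (2 * m + 3) Q i) = Dt (fl (2 * m + 3) Q) (fl 3 1 i)
      rw [Dt_fl _ _ (by omega), Dt_fl _ _ (by omega), add_comm 3]
      have : (X 0 + X 1 + X 2 : Sy) ^ (2 * m + 3) * 1 + (X 0 ^ 3 + X 1 ^ 3 + X 2 ^ 3) * Q =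
          (X 0 + X 1 + X 2) ^ 3 * Q +
            (X 0 ^ (2 * m + 3) + X 1 ^ (2 * m + 3) + X 2 ^ (2 * m + 3)) * 1 := by
        simp only [ps] at hr
        linear_combination hr
      rw [this]
  · simp [tors, al]
  · simp [curv, al, Fin.sum_univ_three]
  · simp [curv, al, Fin.sum_univ_three]

end Pool.Agent.Results.MP_3301e6_mp.Counter
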